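import Pool.Agent.Q91.PT.Stm

/-!
# Job PT-BIN (for helper91): differences of binomial probabilities
-/

set_option autoImplicit false

namespace Pool.Agent.Q198.PT.Bin

open Finset Polynomial

noncomputable section

/-- the sum of the absolute values of the coefficients -/
def N (P : ℝ[X]) : ℝ := ∑ i ∈ P.support, |P.coeff i|

lemma N_nonneg (P : ℝ[X]) : 0 ≤ N P := sum_nonneg fun _ _ => abs_nonneg _

lemma sum_le_N (P : ℝ[X]) (S : Finset ℕ) : ∑ i ∈ S, |P.coeff i| ≤ N P := by
  classical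
  unfold N
  calc ∑ i ∈ S, |P.coeff i| = ∑ i ∈ S.filter (fun i => i ∈ P.support), |P.coeff i| := by
        symm
        apply sum_subset (filter_subset _ _)
        intro i hi h
        have h1 : i ∉ P.support := fun h2 => h (mem_filter.2 ⟨hi, h2⟩)
        rw [notMem_support_iff.1 h1, abs_zero]
    _ ≤ ∑ i ∈ P.support, |P.coeff i| := by
        apply sum_le_sum_of_subset_of_nonneg
        · intro i hi
          exact (mem_filter.1 hi).2
        · intro i _ _
          exact abs_nonneg _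

lemma N_add (P Q : ℝ[X]) : N (P + Q) ≤ N P + N Q := by
  calc N (P + Q) = ∑ i ∈ (P + Q).support, |(P + Q).coeff i| := rfl
    _ ≤ ∑ i ∈ (P + Q).support, (|P.coeff i| + |Q.coeff i|) := by
        apply sum_le_sum
        intro i _
        rw [coeff_add]
        exact abs_add_le _ _
    _ = ∑ i ∈ (P + Q).support, |P.coeff i| + ∑ i ∈ (P + Q).support, |Q.coeff i| := sum_add_distrib
    _ ≤ N P + N Q := add_le_add (sum_le_N _ _) (sum_le_N _ _)

lemma N_zero : N 0 = 0 := by simp [N]

lemma N_sum {ι : Type} (s : Finset ι) (f : ι → ℝ[X]) : N (∑ i ∈ s, f i) ≤ ∑ i ∈ s, N (f i) := by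
  classical
  induction s using Finset.induction_on with
  | empty => simp [N_zero]
  | insert a s ha ih =>
    rw [sum_insert ha, sum_insert ha]
    exact (N_add _ _).trans (by linarith)

lemma N_monomial_mul (n : ℕ) (a : ℝ) (Q : ℝ[X]) : N (monomial n a * Q) ≤ |a| * N Q := by
  classical
  unfold N
  set S := (monomial n a * Q).support with hS
  have h0 : ∀ i, (monomial n a * Q).coeff i = if n ≤ i then a * Q.coeff (i - n) else 0 := by
    intro i
    split_ifs with h
    · obtain ⟨d, rfl⟩ := Nat.exists_eq_add_of_le' h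
      rw [coeff_monomial_mul, Nat.add_sub_cancel]
    · rw [← C_mul_X_pow_eq_monomial, mul_assoc, coeff_C_mul, coeff_X_pow_mul', if_neg h, mul_zero]
  calc ∑ i ∈ S, |(monomial n a * Q).coeff i|
      = ∑ i ∈ S.filter (fun i => n ≤ i), |(monomial n a * Q).coeff i| := by
        symm
        apply sum_subset (filter_subset _ _)
        intro i hi h
        have h1 : ¬ n ≤ i := fun h2 => h (mem_filter.2 ⟨hi, h2⟩)
        rw [h0, if_neg h1, abs_zero]
    _ = ∑ i ∈ S.filter (fun i => n ≤ i), |a| * |Q.coeff (i - n)| := by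
        apply sum_congr rfl
        intro i hi
        rw [h0, if_pos (mem_filter.1 hi).2, abs_mul]
    _ = |a| * ∑ i ∈ S.filter (fun i => n ≤ i), |Q.coeff (i - n)| := by rw [mul_sum]
    _ ≤ |a| * N Q := by
        apply mul_le_mul_of_nonneg_left _ (abs_nonneg a)
        have h2 : Set.InjOn (fun i => i - n) ((S.filter (fun i => n ≤ i) : Finset ℕ) : Set ℕ) := by
          intro i hi j hj h
          have h3 := (mem_filter.1 (Finset.mem_coe.1 hi)).2
          have h4 := (mem_filter.1 (Finset.mem_coe.1 hj)).2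
          have h5 : i - n = j - n := h
          omega
        rw [← sum_image (s := S.filter (fun i => n ≤ i)) (f := fun j => |Q.coeff j|)
          (g := fun i => i - n) h2]
        exact sum_le_N _ _

lemma N_mul (P Q : ℝ[X]) : N (P * Q) ≤ N P * N Q := by
  conv_lhs => rw [P.as_sum_support, sum_mul]
  refine (N_sum _ _).trans ?_
  rw [show N P * N Q = ∑ i ∈ P.support, |P.coeff i| * N Q by rw [N, sum_mul]]
  exact sum_le_sum fun i _ => N_monomial_mul _ _ _

lemma N_one : N 1 ≤ 1 := by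
  have h := N_monomial_mul 0 1 1
  unfold N
  calc ∑ i ∈ (1 : ℝ[X]).support, |(1 : ℝ[X]).coeff i| ≤ ∑ i ∈ ({0} : Finset ℕ), |(1 : ℝ[X]).coeff i| := by
        apply sum_le_sum_of_subset_of_nonneg
        · intro i hi
          rw [mem_singleton]
          by_contra h
          rw [mem_support_iff, coeff_one, if_neg h] at hi
          exact hi rfl
        · intro i _ _
          exact abs_nonneg _
    _ = 1 := by simp

lemma N_pow (P : ℝ[X]) (n : ℕ) : N (P ^ n) ≤ N P ^ n := by
  induction n with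
  | zero => simpa using N_one
  | succ n ih =>
    rw [pow_succ, pow_succ]
    exact (N_mul _ _).trans (mul_le_mul_of_nonneg_right ih (N_nonneg _))

lemma N_le_range (P : ℝ[X]) (n : ℕ) (h : ∀ i, n < i → P.coeff i = 0) :
    N P ≤ ∑ i ∈ range (n + 1), |P.coeff i| := by
  unfold N
  apply sum_le_sum_of_subset_of_nonneg
  · intro i hi
    rw [mem_range]
    by_contra h1
    exact (mem_support_iff.1 hi) (h i (by omega))
  · intro i _ _
    exact abs_nonneg _

/-- the generating polynomial of a fair coin -/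
def B : ℝ[X] := C (1 / 2) * (1 + X)

lemma B_coeff (m i : ℕ) : (B ^ m).coeff i = (m.choose i : ℝ) / 2 ^ m := by
  unfold B
  rw [mul_pow, ← C_pow, coeff_C_mul, coeff_one_add_X_pow, one_div, inv_pow]
  ring

lemma N_B : N B ≤ 1 := by
  have h : ∀ i, B.coeff i = (Nat.choose 1 i : ℝ) / 2 ^ 1 := fun i => by
    rw [← B_coeff 1 i, pow_one]
  refine (N_le_range B 1 fun i hi => ?_).trans ?_
  · rw [h, Nat.choose_eq_zero_of_lt hi]
    simp
  · simp only [sum_range_succ, sum_range_zero, h]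
    norm_num

/-- the first difference of the binomial distribution -/
def R (m : ℕ) : ℝ[X] := (1 - X) * B ^ m

lemma R_coeff (m i : ℕ) : ((m : ℝ) + 1) * (R m).coeff i =
    ((m : ℝ) + 1 - 2 * i) * (((m + 1).choose i : ℝ) / 2 ^ m) := by
  unfold R
  rw [sub_mul, one_mul, coeff_sub, B_coeff]
  cases i with
  | zero =>
    rw [mul_coeff_zero, coeff_X_zero, zero_mul]
    simp
  | succ i =>
    rw [coeff_X_mul, B_coeff]
    have h1 : ((m : ℝ) + 1) * (m.choose i : ℝ) = ((m + 1).choose (i + 1) : ℝ) * ((i : ℝ) + 1) := by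
      exact_mod_cast Nat.add_one_mul_choose_eq m i
    have h2 : (m.choose (i + 1) : ℝ) + (m.choose i : ℝ) = ((m + 1).choose (i + 1) : ℝ) := by
      rw [Nat.choose_succ_succ' m i]
      push_cast
      ring
    have h3 : (m.choose (i + 1) : ℝ) = ((m + 1).choose (i + 1) : ℝ) - (m.choose i : ℝ) := by linarith
    rw [h3]
    have h4 : (m.choose i : ℝ) = ((m + 1).choose (i + 1) : ℝ) * ((i : ℝ) + 1) / ((m : ℝ) + 1) := by
      rw [eq_div_iff (by positivity)]
      linarith
    rw [h4]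
    push_cast
    field_simp
    ring

lemma variance (n : ℕ) :
    ∑ i ∈ range (n + 1), ((n : ℝ) - 2 * i) ^ 2 * ((n.choose i : ℝ) / 2 ^ n) = (n : ℝ) := by
  have h := congrArg (fun p : ℝ[X] => p.eval (1 / 2)) (bernsteinPolynomial.variance ℝ n)
  simp only [bernsteinPolynomial, eval_finsetSum, eval_mul, eval_pow, eval_sub, eval_X,
    eval_natCast, eval_one, nsmul_eq_mul] at h
  have h2 : ∑ i ∈ range (n + 1), ((n : ℝ) - 2 * i) ^ 2 * ((n.choose i : ℝ) / 2 ^ n) =
      4 * ∑ i ∈ range (n + 1), ((n : ℝ) * (1 / 2) - i) ^ 2 *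
        ((n.choose i : ℝ) * (1 / 2) ^ i * (1 - 1 / 2) ^ (n - i)) := by
    rw [mul_sum]
    apply sum_congr rfl
    intro i hi
    have h3 : i ≤ n := by
      rw [mem_range] at hi
      omega
    have h4 : ((1 : ℝ) / 2) ^ i * (1 - 1 / 2) ^ (n - i) = 1 / 2 ^ n := by
      rw [show (1 : ℝ) - 1 / 2 = 1 / 2 by norm_num, ← pow_add, Nat.add_sub_cancel' h3, one_div, one_div,
        inv_pow]
    rw [mul_assoc ((n.choose i : ℝ)), h4]
    ring
  rw [h2, h]
  ring

lemma total (n : ℕ) : ∑ i ∈ range (n + 1), ((n.choose i : ℝ) / 2 ^ n) = (1 : ℝ) := by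
  rw [← sum_div, div_eq_one_iff_eq (by positivity)]
  exact_mod_cast Nat.sum_range_choose n

lemma N_R (m : ℕ) : N (R m) ≤ 2 / √((m : ℝ) + 1) := by
  have hm : (0 : ℝ) < (m : ℝ) + 1 := by positivity
  have hc : ∀ i, (R m).coeff i =
      2 / ((m : ℝ) + 1) * ((((m + 1 : ℕ) : ℝ) - 2 * i) * (((m + 1).choose i : ℝ) / 2 ^ (m + 1))) := by
    intro i
    have h := R_coeff m i
    push_cast
    rw [pow_succ]
    field_simp
    field_simp at h
    linarith
  refine (N_le_range (R m) (m + 1) fun i hi => ?_).trans ?_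
  · rw [hc, Nat.choose_eq_zero_of_lt hi]
    simp
  · have h1 : ∀ i, |(R m).coeff i| = 2 / ((m : ℝ) + 1) *
        (|((m + 1 : ℕ) : ℝ) - 2 * i| * (((m + 1).choose i : ℝ) / 2 ^ (m + 1))) := by
      intro i
      rw [hc, abs_mul, abs_mul, abs_of_nonneg (show (0 : ℝ) ≤ 2 / ((m : ℝ) + 1) by positivity),
        abs_of_nonneg (show (0 : ℝ) ≤ ((m + 1).choose i : ℝ) / 2 ^ (m + 1) by positivity)]
    simp only [h1]
    rw [← mul_sum]
    have h2 : ∑ i ∈ range (m + 1 + 1), |((m + 1 : ℕ) : ℝ) - 2 * i| *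
        (((m + 1).choose i : ℝ) / 2 ^ (m + 1)) ≤ √((m : ℝ) + 1) := by
      apply Real.le_sqrt_of_sq_le
      have h3 := Finset.sum_mul_sq_le_sq_mul_sq (range (m + 1 + 1))
        (fun i : ℕ => |((m + 1 : ℕ) : ℝ) - 2 * i| * √(((m + 1).choose i : ℝ) / 2 ^ (m + 1)))
        (fun i : ℕ => √(((m + 1).choose i : ℝ) / 2 ^ (m + 1)))
      have h4 : ∀ i : ℕ, |((m + 1 : ℕ) : ℝ) - 2 * i| * √(((m + 1).choose i : ℝ) / 2 ^ (m + 1)) *
          √(((m + 1).choose i : ℝ) / 2 ^ (m + 1)) =
          |((m + 1 : ℕ) : ℝ) - 2 * i| * (((m + 1).choose i : ℝ) / 2 ^ (m + 1)) := by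
        intro i
        rw [mul_assoc, Real.mul_self_sqrt (by positivity)]
      have h5 : ∀ i : ℕ, (|((m + 1 : ℕ) : ℝ) - 2 * i| * √(((m + 1).choose i : ℝ) / 2 ^ (m + 1))) ^ 2 =
          (((m + 1 : ℕ) : ℝ) - 2 * i) ^ 2 * (((m + 1).choose i : ℝ) / 2 ^ (m + 1)) := by
        intro i
        rw [mul_pow, sq_abs, Real.sq_sqrt (by positivity)]
      have h6 : ∀ i : ℕ, √(((m + 1).choose i : ℝ) / 2 ^ (m + 1)) ^ 2 =
          ((m + 1).choose i : ℝ) / 2 ^ (m + 1) := fun i => Real.sq_sqrt (by positivity)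
      simp only [h4, h5, h6] at h3
      rw [variance, total, mul_one] at h3
      exact_mod_cast h3
    calc 2 / ((m : ℝ) + 1) * ∑ i ∈ range (m + 1 + 1), |((m + 1 : ℕ) : ℝ) - 2 * i| *
        (((m + 1).choose i : ℝ) / 2 ^ (m + 1)) ≤ 2 / ((m : ℝ) + 1) * √((m : ℝ) + 1) :=
          mul_le_mul_of_nonneg_left h2 (by positivity)
      _ = 2 / √((m : ℝ) + 1) := by
          rw [div_mul_eq_mul_div, div_eq_div_iff hm.ne' (Real.sqrt_pos.2 hm).ne', mul_assoc,
            Real.mul_self_sqrt hm.le]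

lemma main_bound (k K : ℕ) : N ((1 - X) ^ k * B ^ K) ≤ (2 / √(((K / k : ℕ) : ℝ) + 1)) ^ k := by
  have h : (1 - X : ℝ[X]) ^ k * B ^ K = R (K / k) ^ k * B ^ (K % k) := by
    unfold R
    rw [mul_pow, ← pow_mul, mul_assoc, ← pow_add, mul_comm (K / k) k, Nat.div_add_mod]
  rw [h]
  calc N (R (K / k) ^ k * B ^ (K % k)) ≤ N (R (K / k) ^ k) * N (B ^ (K % k)) := N_mul _ _
    _ ≤ N (R (K / k)) ^ k * 1 := by
        apply mul_le_mul (N_pow _ _) _ (N_nonneg _) (pow_nonneg (N_nonneg _) _)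
        exact (N_pow _ _).trans (pow_le_one₀ (N_nonneg _) N_B)
    _ ≤ (2 / √(((K / k : ℕ) : ℝ) + 1)) ^ k := by
        rw [mul_one]
        exact pow_le_pow_left₀ (N_nonneg _) (N_R _) _

lemma final (k K : ℕ) (hK : 1 ≤ K) :
    (2 / √(((K / k : ℕ) : ℝ) + 1)) ^ k ≤ (2 * √(k : ℝ)) ^ k * (K : ℝ) ^ (-(k : ℝ) / 2) := by
  rcases Nat.eq_zero_or_pos k with rfl | hk
  · simp
  · have hK' : (0 : ℝ) < K := by exact_mod_cast hK
    have hk' : (0 : ℝ) < k := by exact_mod_cast hk
    have h1 : (K : ℝ) ^ (-(k : ℝ) / 2) = (1 / √(K : ℝ)) ^ k := by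
      rw [one_div, inv_pow, Real.sqrt_eq_rpow, ← Real.rpow_natCast, ← Real.rpow_mul hK'.le,
        ← Real.rpow_neg hK'.le]
      congr 1
      ring
    rw [h1, ← mul_pow]
    apply pow_le_pow_left₀ (by positivity)
    have h2 : (K : ℝ) / k ≤ ((K / k : ℕ) : ℝ) + 1 := by
      rw [div_le_iff₀ hk']
      have h3 : K < (K / k + 1) * k := by
        have := Nat.lt_div_mul_add (a := K) hk
        rw [add_mul, one_mul]
        exact this
      exact_mod_cast h3.le
    have h4 : √((K : ℝ) / k) ≤ √(((K / k : ℕ) : ℝ) + 1) := Real.sqrt_le_sqrt h2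
    have h5 : 0 < √((K : ℝ) / k) := Real.sqrt_pos.2 (by positivity)
    calc 2 / √(((K / k : ℕ) : ℝ) + 1) ≤ 2 / √((K : ℝ) / k) :=
          div_le_div_of_nonneg_left (by norm_num) h5 h4
      _ = 2 * √(k : ℝ) * (1 / √(K : ℝ)) := by
          rw [Real.sqrt_div hK'.le]
          field_simp

/-- the coefficient formula -/
lemma coeff_formula (k K i : ℕ) : ((1 - X) ^ k * B ^ K : ℝ[X]).coeff i =
    ∑ j ∈ range (k + 1), (-1) ^ j * (k.choose j : ℝ) *
      (if j ≤ i then (K.choose (i - j) : ℝ) / 2 ^ K else 0) := by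
  have h : (1 - X : ℝ[X]) ^ k = ∑ j ∈ range (k + 1), C ((-1) ^ j * (k.choose j : ℝ)) * X ^ j := by
    rw [sub_eq_add_neg, add_comm, add_pow]
    apply sum_congr rfl
    intro j _
    rw [one_pow, mul_one, neg_pow, C_mul, C_pow, C_neg, C_1, map_natCast]
    ring
  rw [h, sum_mul, finsetSum_coeff]
  apply sum_congr rfl
  intro j _
  rw [mul_assoc, coeff_C_mul, coeff_X_pow_mul', B_coeff]

theorem t : Pool.Agent.Q91.PT.S_bin := by
  intro k
  refine ⟨(2 * √(k : ℝ)) ^ k, ?_, ?_⟩
  · rcases Nat.eq_zero_or_pos k with rfl | hk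
    · simp
    · have hk' : (0 : ℝ) < k := by exact_mod_cast hk
      have := Real.sqrt_pos.2 hk'
      positivity
  · intro K hK S
    refine le_trans ?_ ((main_bound k K).trans (final k K hK))
    classical
    have key : ∀ a : ℤ, |∑ j ∈ range (k + 1), (-1) ^ j * (k.choose j : ℝ) *
        (if 0 ≤ a + j then (K.choose (a + j).toNat : ℝ) / 2 ^ K else 0)| =
        if 0 ≤ a + k then |((1 - X) ^ k * B ^ K : ℝ[X]).coeff (a + k).toNat| else 0 := by
      intro a
      split_ifs with ha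
      · rw [coeff_formula, ← sum_range_reflect]
        have h : ∑ j ∈ range (k + 1), (-1 : ℝ) ^ (k + 1 - 1 - j) * (k.choose (k + 1 - 1 - j) : ℝ) *
            (if 0 ≤ a + ((k + 1 - 1 - j : ℕ) : ℤ) then
              (K.choose (a + ((k + 1 - 1 - j : ℕ) : ℤ)).toNat : ℝ) / 2 ^ K else 0) =
            (-1) ^ k * ∑ j ∈ range (k + 1), (-1 : ℝ) ^ j * (k.choose j : ℝ) *
              (if j ≤ (a + k).toNat then (K.choose ((a + k).toNat - j) : ℝ) / 2 ^ K else 0) := by
          rw [mul_sum]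
          apply sum_congr rfl
          intro j hj
          have hj' : j ≤ k := by
            rw [mem_range] at hj
            omega
          have e1 : k + 1 - 1 - j = k - j := by omega
          rw [e1, Nat.choose_symm hj']
          have e2 : (-1 : ℝ) ^ (k - j) = (-1) ^ k * (-1) ^ j := by
            have : (-1 : ℝ) ^ k = (-1) ^ (k - j) * (-1) ^ j := by
              rw [← pow_add, Nat.sub_add_cancel hj']
            rw [this, mul_assoc, ← pow_add, ← two_mul, pow_mul]
            norm_num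
          rw [e2]
          by_cases h3 : j ≤ (a + k).toNat
          · have h4 : 0 ≤ a + ((k - j : ℕ) : ℤ) := by omega
            have h5 : (a + ((k - j : ℕ) : ℤ)).toNat = (a + k).toNat - j := by omega
            rw [if_pos h4, if_pos h3, h5]
            ring
          · have h4 : ¬ 0 ≤ a + ((k - j : ℕ) : ℤ) := by omega
            rw [if_neg h4, if_neg h3]
            ring
        rw [h, abs_mul, abs_pow, abs_neg, abs_one, one_pow, one_mul]
      · have h : ∑ j ∈ range (k + 1), (-1 : ℝ) ^ j * (k.choose j : ℝ) *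
            (if 0 ≤ a + j then (K.choose (a + j).toNat : ℝ) / 2 ^ K else 0) = 0 := by
          apply sum_eq_zero
          intro j hj
          have hj' : j ≤ k := by
            rw [mem_range] at hj
            omega
          have h4 : ¬ 0 ≤ a + (j : ℤ) := by omega
          rw [if_neg h4, mul_zero]
        rw [h, abs_zero]
    rw [sum_congr rfl fun a _ => key a, ← sum_filter]
    have hinj : Set.InjOn (fun a : ℤ => (a + k).toNat) ((S.filter (fun a => 0 ≤ a + k) : Finset ℤ) : Set ℤ) := by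
      intro a ha b hb h
      have h1 := (mem_filter.1 (Finset.mem_coe.1 ha)).2
      have h2 := (mem_filter.1 (Finset.mem_coe.1 hb)).2
      have h3 : (a + k).toNat = (b + k).toNat := h
      omega
    have h6 := Finset.sum_image (f := fun i : ℕ => |((1 - X) ^ k * B ^ K : ℝ[X]).coeff i|) hinj
    rw [← h6]
    exact sum_le_N _ _

end

end Pool.Agent.Q198.PT.Bin
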