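import Pool.Agent.Q91.PT.Stm

/-!
# Job PT-LOW (for helper91): the trivial lower bound for the area of a polygon
-/

set_option autoImplicit false

namespace Pool.Agent.Q198.PT.Low

open Finset Pool.Agent.H924P

/-- unit steps -/
lemma step4 {x y : ℤ} (h : |x| + |y| = 1) :
    (x = 1 ∧ y = 0) ∨ (x = 0 ∧ y = 1) ∨ (x = -1 ∧ y = 0) ∨ (x = 0 ∧ y = -1) := by
  rcases abs_cases x with ⟨h1, h2⟩ | ⟨h1, h2⟩ <;> rcases abs_cases y with ⟨h3, h4⟩ | ⟨h3, h4⟩ <;> omega

/-- the four unit vectors -/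
def off : Fin 4 → ℤ × ℤ
  | 0 => (1, 0)
  | 1 => (0, 1)
  | 2 => (-1, 0)
  | 3 => (0, -1)

/-- the opposite direction -/
def opp : Fin 4 → Fin 4
  | 0 => 2
  | 1 => 3
  | 2 => 0
  | 3 => 1

/-- the first cell at the edge from `v` in direction `i` -/
def ca (v : ℤ × ℤ) : Fin 4 → ℤ × ℤ
  | 0 => (v.1, v.2)
  | 1 => (v.1, v.2)
  | 2 => (v.1 - 1, v.2)
  | 3 => (v.1, v.2 - 1)

/-- the second cell at the edge from `v` in direction `i` -/
def cb (v : ℤ × ℤ) : Fin 4 → ℤ × ℤ
  | 0 => (v.1, v.2 - 1)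
  | 1 => (v.1 - 1, v.2)
  | 2 => (v.1 - 1, v.2 - 1)
  | 3 => (v.1 - 1, v.2 - 1)

/-- direction from the first to the second cell -/
def ja : Fin 4 → Fin 4
  | 0 => 3
  | 1 => 2
  | 2 => 3
  | 3 => 2

/-- direction from the second to the first cell -/
def jb : Fin 4 → Fin 4
  | 0 => 1
  | 1 => 0
  | 2 => 1
  | 3 => 0

lemma off_inj : ∀ a b : Fin 4, off a = off b → a = b := by decide

lemma off_ne : ∀ i : Fin 4, off i ≠ 0 := by decide

lemma ca_off (v : ℤ × ℤ) (i : Fin 4) : ca v i + off (ja i) = cb v i := by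
  fin_cases i <;> ext <;> simp [ca, cb, ja, off, sub_eq_add_neg]

lemma cb_off (v : ℤ × ℤ) (i : Fin 4) : cb v i + off (jb i) = ca v i := by
  fin_cases i <;> ext <;> simp [ca, cb, jb, off]

lemma off_opp (c : ℤ × ℤ) (i : Fin 4) : c + off i + off (opp i) = c := by
  fin_cases i <;> ext <;> simp [off, opp]

/-- the edge from `v` in direction `i` separates the set from its complement -/
def ch (X : Finset (ℤ × ℤ)) (v : ℤ × ℤ) (i : Fin 4) : Bool :=
  xor (decide (ca v i ∈ X)) (decide (cb v i ∈ X))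

lemma ch_iff (X : Finset (ℤ × ℤ)) (v : ℤ × ℤ) (i : Fin 4) :
    ch X v i = true ↔ ¬ (ca v i ∈ X ↔ cb v i ∈ X) := by
  unfold ch
  by_cases h1 : ca v i ∈ X <;> by_cases h2 : cb v i ∈ X <;> simp [h1, h2]

lemma ch_opp (X : Finset (ℤ × ℤ)) (v : ℤ × ℤ) (i : Fin 4) : ch X (v + off i) (opp i) = ch X v i := by
  have h1 : ca (v + off i) (opp i) = ca v i := by
    fin_cases i <;> ext <;> simp [ca, off, opp, sub_eq_add_neg]
  have h2 : cb (v + off i) (opp i) = cb v i := by
    fin_cases i <;> ext <;> simp [cb, off, opp, sub_eq_add_neg]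
  unfold ch
  rw [h1, h2]

lemma parity (X : Finset (ℤ × ℤ)) (v : ℤ × ℤ) :
    xor (ch X v 0) (xor (ch X v 1) (xor (ch X v 2) (ch X v 3))) = false := by
  unfold ch ca cb
  generalize decide ((v.1, v.2) ∈ X) = a
  generalize decide ((v.1, v.2 - 1) ∈ X) = b
  generalize decide ((v.1 - 1, v.2) ∈ X) = c
  generalize decide ((v.1 - 1, v.2 - 1) ∈ X) = d
  revert a b c d
  decide

lemma bool4 : ∀ (b : Fin 4 → Bool) (i j : Fin 4), i ≠ j →
    xor (b 0) (xor (b 1) (xor (b 2) (b 3))) = false → (∀ l, l ≠ i → l ≠ j → b l = false) → b i = b j := by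
  decide

/-- `T` is a union of components of `S` -/
structure Closed (S T : Finset (ℤ × ℤ)) : Prop where
  sub : T ⊆ S
  cl : ∀ c ∈ T, ∀ i, c + off i ∈ S → c + off i ∈ T

lemma Closed.out_b {S T : Finset (ℤ × ℤ)} (h : Closed S T) {v : ℤ × ℤ} {i : Fin 4} (ha : ca v i ∈ T)
    (hb : cb v i ∉ T) : cb v i ∉ S := by
  intro h1
  rw [← ca_off] at h1 hb
  exact hb (h.cl _ ha _ h1)

lemma Closed.out_a {S T : Finset (ℤ × ℤ)} (h : Closed S T) {v : ℤ × ℤ} {i : Fin 4} (hb : cb v i ∈ T)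
    (ha : ca v i ∉ T) : ca v i ∉ S := by
  intro h1
  rw [← cb_off] at h1 ha
  exact ha (h.cl _ hb _ h1)

lemma Closed.ch_le {S T : Finset (ℤ × ℤ)} (h : Closed S T) {v : ℤ × ℤ} {i : Fin 4}
    (hc : ch T v i = true) : ch S v i = true := by
  rw [ch_iff] at hc ⊢
  intro h1
  apply hc
  constructor
  · intro ha
    by_contra hb
    exact h.out_b ha hb (h1.1 (h.sub ha))
  · intro hb
    by_contra ha
    exact h.out_a hb ha (h1.2 (h.sub hb))

lemma Closed.diff {S T : Finset (ℤ × ℤ)} (h : Closed S T) : Closed S (S \ T) := by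
  refine ⟨sdiff_subset, fun c hc i hi => ?_⟩
  rw [mem_sdiff] at hc ⊢
  refine ⟨hi, fun h1 => hc.2 ?_⟩
  have h2 := h.cl _ h1 (opp i)
  rw [off_opp] at h2
  exact h2 hc.1

lemma Closed.not_both {S T : Finset (ℤ × ℤ)} (h : Closed S T) {v : ℤ × ℤ} {i : Fin 4}
    (hc : ch T v i = true) (hc' : ch (S \ T) v i = true) : False := by
  rw [ch_iff] at hc hc'
  simp only [mem_sdiff] at hc'
  by_cases ha : ca v i ∈ T
  · have hb : cb v i ∉ T := fun hb => hc ⟨fun _ => hb, fun _ => ha⟩
    have hb' := h.out_b ha hb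
    exact hc' ⟨fun h1 => absurd ha h1.2, fun h1 => absurd h1.1 hb'⟩
  · have hb : cb v i ∈ T := by
      by_contra hb
      exact hc ⟨fun h1 => absurd h1 ha, fun h1 => absurd h1 hb⟩
    have ha' := h.out_a hb ha
    exact hc' ⟨fun h1 => absurd h1.1 ha', fun h1 => absurd hb h1.2⟩

section loop

variable {m : ℕ} {f : ZMod m → ℤ × ℤ}

lemma exists_dir (hf : IsLoop m f) (k : ZMod m) : ∃ i : Fin 4, f (k + 1) = f k + off i := by
  rcases step4 (hf.2.2 k) with h | h | h | h
  · exact ⟨0, by ext <;> simp [off] <;> omega⟩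
  · exact ⟨1, by ext <;> simp [off] <;> omega⟩
  · exact ⟨2, by ext <;> simp [off] <;> omega⟩
  · exact ⟨3, by ext <;> simp [off] <;> omega⟩

/-- the edges of the loop in terms of the enclosed cells -/
lemma ver4 (hver : Pool.Agent.Q91.PT.S_ver) (hm : 4 ≤ m) (hf : IsLoop m f) {S : Finset (ℤ × ℤ)}
    (hS : ∀ c, c ∈ S ↔ Encl m f c) (v : ℤ × ℤ) (i : Fin 4) : ch S v i = true ↔
      ∃ k, (f k = v ∧ f (k + 1) = v + off i) ∨ (f k = v + off i ∧ f (k + 1) = v) := by
  obtain ⟨h1, h2⟩ := hver m f hm hf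
  rw [ch_iff, hS, hS]
  obtain ⟨x, y⟩ := v
  fin_cases i
  · refine (h1 x y).trans (exists_congr fun k => ?_)
    simp [off]
  · refine (h2 x y).trans (exists_congr fun k => ?_)
    simp [off]
  · refine (h1 (x - 1) y).trans (exists_congr fun k => ?_)
    simp only [off, Prod.mk_add_mk, sub_add_cancel, add_zero, ← sub_eq_add_neg]
    exact or_comm
  · refine (not_congr ?_).trans ((h2 x (y - 1)).trans (exists_congr fun k => ?_))
    · exact Iff.rfl
    · simp only [off, Prod.mk_add_mk, sub_add_cancel, add_zero, ← sub_eq_add_neg]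
      exact or_comm

lemma two_ne (hm : 4 ≤ m) (k : ZMod m) : k + 1 + 1 ≠ k := by
  intro h
  have h1 : (2 : ZMod m) = 0 := by
    have : k + 1 + 1 = k + 2 := by ring
    rw [this] at h
    simpa using h
  have h2 : ((2 : ℕ) : ZMod m) = 0 := by exact_mod_cast h1
  rw [ZMod.natCast_eq_zero_iff] at h2
  have := Nat.le_of_dvd (by norm_num) h2
  omega

/-- the state of the edge does not change along the loop -/
lemma const_step (hver : Pool.Agent.Q91.PT.S_ver) (hm : 4 ≤ m) (hf : IsLoop m f) {S T : Finset (ℤ × ℤ)}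
    (hS : ∀ c, c ∈ S ↔ Encl m f c) (hT : Closed S T) {dir : ZMod m → Fin 4}
    (hdir : ∀ k, f (k + 1) = f k + off (dir k)) (k : ZMod m) :
    ch T (f k) (dir k) = ch T (f (k + 1)) (dir (k + 1)) := by
  have h1 : ch T (f (k + 1)) (opp (dir k)) = ch T (f k) (dir k) := by
    rw [hdir k, ch_opp]
  rw [← h1]
  have hback : f (k + 1) + off (opp (dir k)) = f k := by rw [hdir k, off_opp]
  apply bool4 (fun i => ch T (f (k + 1)) i)
  · intro h
    have h2 := hdir (k + 1)
    rw [← h, hback] at h2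
    exact two_ne hm k (hf.2.1 h2)
  · exact parity T _
  · intro l hl1 hl2
    by_contra hc
    rw [Bool.not_eq_false] at hc
    have h3 := hT.ch_le hc
    rw [ver4 hver hm hf hS] at h3
    obtain ⟨j, ⟨h4, h5⟩ | ⟨h4, h5⟩⟩ := h3
    · have h6 : j = k + 1 := hf.2.1 h4
      subst h6
      rw [hdir (k + 1)] at h5
      have h7 : off (dir (k + 1)) = off l := add_left_cancel h5
      exact hl2 (off_inj _ _ h7).symm
    · have h6 : j = k := by
        have := hf.2.1 h5
        exact add_right_cancel this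
      subst h6
      rw [← hback] at h4
      have h7 : off (opp (dir j)) = off l := add_left_cancel h4
      exact hl1 (off_inj _ _ h7).symm

lemma const_all (hver : Pool.Agent.Q91.PT.S_ver) (hm : 4 ≤ m) (hf : IsLoop m f) {S T : Finset (ℤ × ℤ)}
    (hS : ∀ c, c ∈ S ↔ Encl m f c) (hT : Closed S T) {dir : ZMod m → Fin 4}
    (hdir : ∀ k, f (k + 1) = f k + off (dir k)) (k l : ZMod m) :
    ch T (f k) (dir k) = ch T (f l) (dir l) := by
  have : NeZero m := ⟨by omega⟩
  have h : ∀ n : ℕ, ch T (f k) (dir k) = ch T (f (k + n)) (dir (k + n)) := by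
    intro n
    induction n with
    | zero => simp
    | succ n ih =>
      rw [ih, const_step hver hm hf hS hT hdir]
      push_cast
      rw [add_assoc]
  have h1 := h (l - k).val
  rw [ZMod.natCast_val, ZMod.cast_id, add_sub_cancel] at h1
  exact h1

/-- a nonempty union of components has an edge of the loop at its boundary -/
lemma exists_edge (hver : Pool.Agent.Q91.PT.S_ver) (hm : 4 ≤ m) (hf : IsLoop m f) {S T : Finset (ℤ × ℤ)}
    (hS : ∀ c, c ∈ S ↔ Encl m f c) (hT : Closed S T) (hne : T.Nonempty) {dir : ZMod m → Fin 4}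
    (hdir : ∀ k, f (k + 1) = f k + off (dir k)) : ∃ k, ch T (f k) (dir k) = true := by
  obtain ⟨c, hc, hmax⟩ := exists_max_image T (fun c => c.1) hne
  have h1 : c + off 0 ∉ T := by
    intro h
    have := hmax _ h
    simp [off] at this
  -- the vertical edge at the right side of `c`
  have hca : ca (c.1 + 1, c.2) 1 = c + off 0 := by ext <;> simp [ca, off]
  have hcb : cb (c.1 + 1, c.2) 1 = c := by ext <;> simp [cb]
  have h2 : ch T (c.1 + 1, c.2) 1 = true := by
    rw [ch_iff, hca, hcb]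
    intro h
    exact h1 (h.2 hc)
  have h3 := hT.ch_le h2
  rw [ver4 hver hm hf hS] at h3
  obtain ⟨k, ⟨h4, h5⟩ | ⟨h4, h5⟩⟩ := h3
  · refine ⟨k, ?_⟩
    have h6 : dir k = 1 := by
      apply off_inj
      have := hdir k
      rw [h5, h4] at this
      exact (add_left_cancel this).symm
    rw [h4, h6]
    exact h2
  · refine ⟨k, ?_⟩
    have h6 : dir k = opp 1 := by
      apply off_inj
      have h8 := hdir k
      rw [h5, h4] at h8
      have h7 := off_opp (c.1 + 1, c.2) 1
      exact (add_left_cancel (h7.trans h8)).symm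
    rw [h4, h6, ch_opp]
    exact h2

/-- the enclosed cells are connected -/
lemma eq_of_closed (hver : Pool.Agent.Q91.PT.S_ver) (hm : 4 ≤ m) (hf : IsLoop m f) {S T : Finset (ℤ × ℤ)}
    (hS : ∀ c, c ∈ S ↔ Encl m f c) (hT : Closed S T) (hne : T.Nonempty) {dir : ZMod m → Fin 4}
    (hdir : ∀ k, f (k + 1) = f k + off (dir k)) : T = S := by
  by_contra h
  have h1 : (S \ T).Nonempty := by
    rw [sdiff_nonempty]
    intro h2
    exact h (Subset.antisymm hT.sub h2)
  obtain ⟨k, hk⟩ := exists_edge hver hm hf hS hT hne hdir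
  obtain ⟨l, hl⟩ := exists_edge hver hm hf hS hT.diff h1 hdir
  rw [const_all hver hm hf hS hT hdir k l] at hk
  exact hT.not_both hk hl

/-- side adjacency -/
def gr (S : Finset (ℤ × ℤ)) : SimpleGraph S where
  Adj c c' := ∃ i, c'.1 = c.1 + off i
  symm := ⟨by
    rintro c c' ⟨i, hi⟩
    exact ⟨opp i, by rw [hi, off_opp]⟩⟩
  loopless := ⟨by
    rintro c ⟨i, hi⟩
    have h1 : off i = 0 := by
      have : c.1 + 0 = c.1 + off i := by rw [add_zero]; exact hi
      exact (add_left_cancel this).symm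
    exact off_ne i h1⟩

lemma gr_conn (hver : Pool.Agent.Q91.PT.S_ver) (hm : 4 ≤ m) (hf : IsLoop m f) {S : Finset (ℤ × ℤ)}
    (hS : ∀ c, c ∈ S ↔ Encl m f c) (hne : S.Nonempty) {dir : ZMod m → Fin 4}
    (hdir : ∀ k, f (k + 1) = f k + off (dir k)) : (gr S).Connected := by
  classical
  obtain ⟨c0, hc0⟩ := hne
  have hne' : Nonempty S := ⟨⟨c0, hc0⟩⟩
  refine ⟨fun a b => ?_⟩
  let T : Finset (ℤ × ℤ) := S.filter (fun c => ∃ h : c ∈ S, (gr S).Reachable a ⟨c, h⟩)
  have hT : Closed S T := by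
    refine ⟨filter_subset _ _, fun c hc i hi => ?_⟩
    obtain ⟨h1, h2, h3⟩ := mem_filter.1 hc
    refine mem_filter.2 ⟨hi, hi, h3.trans ?_⟩
    apply SimpleGraph.Adj.reachable
    exact ⟨i, rfl⟩
  have haT : a.1 ∈ T := mem_filter.2 ⟨a.2, a.2, SimpleGraph.Reachable.refl a⟩
  have h1 := eq_of_closed hver hm hf hS hT ⟨a.1, haT⟩ hdir
  have h2 : b.1 ∈ T := by
    rw [h1]
    exact b.2
  obtain ⟨_, _, h3⟩ := mem_filter.1 h2
  exact h3

/-- inner sides of a cell -/
lemma degree_eq {S : Finset (ℤ × ℤ)} [DecidableRel (gr S).Adj] (c : S) :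
    (gr S).degree c = (univ.filter (fun i : Fin 4 => c.1 + off i ∈ S)).card := by
  classical
  rw [← SimpleGraph.card_neighborFinset_eq_degree]
  symm
  refine card_bij (fun i hi => (⟨c.1 + off i, (mem_filter.1 hi).2⟩ : S)) ?_ ?_ ?_
  · intro i hi
    rw [SimpleGraph.mem_neighborFinset]
    exact ⟨i, rfl⟩
  · intro i hi j hj h
    have h1 := congrArg Subtype.val h
    exact off_inj _ _ (add_left_cancel h1)
  · intro b hb
    rw [SimpleGraph.mem_neighborFinset] at hb
    obtain ⟨i, hi⟩ := hb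
    refine ⟨i, mem_filter.2 ⟨mem_univ _, ?_⟩, Subtype.ext hi.symm⟩
    rw [← hi]
    exact b.2

/-- the outer sides of cells -/
def outer (S : Finset (ℤ × ℤ)) : Finset ((ℤ × ℤ) × Fin 4) :=
  (S ×ˢ univ).filter (fun p => p.1 + off p.2 ∉ S)

lemma card_outer (S : Finset (ℤ × ℤ)) :
    (outer S).card = ∑ c : S, (univ.filter (fun i : Fin 4 => ¬ c.1 + off i ∈ S)).card := by
  classical
  unfold outer
  rw [card_filter, sum_product, ← sum_coe_sort S]
  refine sum_congr rfl fun c _ => ?_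
  rw [card_filter]

lemma outer_le {S : Finset (ℤ × ℤ)} (hc : (gr S).Connected) : (outer S).card ≤ 2 * S.card + 2 := by
  classical
  have h1 := hc.card_vert_le_card_edgeSet_add_one
  have h2 := (gr S).sum_degrees_eq_twice_card_edges
  have h3 : (outer S).card + ∑ c : S, (gr S).degree c = 4 * S.card := by
    rw [card_outer, ← sum_add_distrib]
    have h4 : ∀ c : S, (univ.filter (fun i : Fin 4 => ¬ c.1 + off i ∈ S)).card + (gr S).degree c = 4 := by
      intro c
      rw [degree_eq, add_comm, card_filter_add_card_filter_not]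
      simp
    rw [sum_congr rfl fun c _ => h4 c, sum_const, card_univ, Fintype.card_coe, smul_eq_mul, mul_comm]
  rw [Nat.card_eq_fintype_card, Nat.card_eq_fintype_card, Fintype.card_coe,
    ← SimpleGraph.edgeFinset_card] at h1
  omega

/-- the side of a cell as an edge of the lattice -/
def ed : (ℤ × ℤ) × Fin 4 → (ℤ × ℤ) × Fin 2
  | (c, 0) => ((c.1 + 1, c.2), 1)
  | (c, 1) => ((c.1, c.2 + 1), 0)
  | (c, 2) => (c, 1)
  | (c, 3) => (c, 0)

/-- the undirected edge -/
def ev (v : ℤ × ℤ) : Fin 4 → (ℤ × ℤ) × Fin 2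
  | 0 => (v, 0)
  | 1 => (v, 1)
  | 2 => ((v.1 - 1, v.2), 0)
  | 3 => ((v.1, v.2 - 1), 1)

lemma ed_a (v : ℤ × ℤ) (i : Fin 4) : ed (ca v i, ja i) = ev v i := by
  fin_cases i <;> simp [ed, ca, ja, ev]

lemma ed_b (v : ℤ × ℤ) (i : Fin 4) : ed (cb v i, jb i) = ev v i := by
  fin_cases i <;> simp [ed, cb, jb, ev]

lemma ev_inj {v w : ℤ × ℤ} {i j : Fin 4} (h : ev v i = ev w j) :
    v = w ∨ (w = v + off i ∧ v = w + off j) := by
  obtain ⟨a, b⟩ := v
  obtain ⟨c, d⟩ := w
  fin_cases i <;> fin_cases j <;> simp [ev, off] at h ⊢ <;> omega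

/-- the edges of the loop are outer sides -/
lemma le_outer (hver : Pool.Agent.Q91.PT.S_ver) (hm : 4 ≤ m) (hf : IsLoop m f) {S : Finset (ℤ × ℤ)}
    (hS : ∀ c, c ∈ S ↔ Encl m f c) {dir : ZMod m → Fin 4}
    (hdir : ∀ k, f (k + 1) = f k + off (dir k)) : m ≤ (outer S).card ∧ S.Nonempty := by
  classical
  have : NeZero m := ⟨by omega⟩
  have hch : ∀ k, ¬ (ca (f k) (dir k) ∈ S ↔ cb (f k) (dir k) ∈ S) := by
    intro k
    rw [← ch_iff, ver4 hver hm hf hS]
    exact ⟨k, Or.inl ⟨rfl, hdir k⟩⟩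
  constructor
  · let Φ : ZMod m → (ℤ × ℤ) × Fin 4 := fun k =>
      if ca (f k) (dir k) ∈ S then (ca (f k) (dir k), ja (dir k)) else (cb (f k) (dir k), jb (dir k))
    have h1 : ∀ k, Φ k ∈ outer S := by
      intro k
      unfold outer
      rw [mem_filter, mem_product]
      by_cases ha : ca (f k) (dir k) ∈ S
      · have hb : cb (f k) (dir k) ∉ S := fun hb => hch k ⟨fun _ => hb, fun _ => ha⟩
        simp only [Φ, if_pos ha]
        refine ⟨⟨ha, mem_univ _⟩, ?_⟩
        rw [ca_off]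
        exact hb
      · have hb : cb (f k) (dir k) ∈ S := by
          by_contra hb
          exact hch k ⟨fun h => absurd h ha, fun h => absurd h hb⟩
        simp only [Φ, if_neg ha]
        refine ⟨⟨hb, mem_univ _⟩, ?_⟩
        rw [cb_off]
        exact ha
    have h2 : ∀ k, ed (Φ k) = ev (f k) (dir k) := by
      intro k
      by_cases ha : ca (f k) (dir k) ∈ S
      · simp only [Φ, if_pos ha]
        exact ed_a _ _
      · simp only [Φ, if_neg ha]
        exact ed_b _ _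
    have h3 : Set.InjOn Φ (univ : Finset (ZMod m)) := by
      intro k _ l _ hkl
      have h4 : ev (f k) (dir k) = ev (f l) (dir l) := by
        rw [← h2, ← h2, hkl]
      rcases ev_inj h4 with h5 | ⟨h5, h6⟩
      · exact hf.2.1 h5
      · rw [← hdir] at h5 h6
        have h7 := hf.2.1 h5
        have h8 := hf.2.1 h6
        rw [h7] at h8
        exact absurd h8.symm (two_ne hm k)
    have h4 := card_le_card_of_injOn Φ (fun k _ => h1 k) h3
    rwa [card_univ, ZMod.card] at h4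
  · by_contra hne
    rw [not_nonempty_iff_eq_empty] at hne
    apply hch 0
    simp [hne]

/-- the finite set of enclosed cells -/
lemma exists_S (hm : 4 ≤ m) (hf : IsLoop m f) : ∃ S : Finset (ℤ × ℤ), (∀ c, c ∈ S ↔ Encl m f c) ∧
    area m f = S.card := by
  classical
  have : NeZero m := ⟨by omega⟩
  let L : ℤ := ∑ i, (|(f i).1| + |(f i).2|)
  have hL : ∀ i, |(f i).1| + |(f i).2| ≤ L := fun i =>
    single_le_sum (f := fun i => |(f i).1| + |(f i).2|)
      (fun j _ => add_nonneg (abs_nonneg _) (abs_nonneg _)) (mem_univ i)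
  have hx : ∀ i, |(f i).1| ≤ L := fun i => by
    have := hL i
    have := abs_nonneg (f i).2
    omega
  have hy : ∀ i, |(f i).2| ≤ L := fun i => by
    have := hL i
    have := abs_nonneg (f i).1
    omega
  let S : Finset (ℤ × ℤ) := (Ico (-L) L ×ˢ Ico (-L) L).filter (fun c => Encl m f c)
  have hS : ∀ c, c ∈ S ↔ Encl m f c := by
    intro c
    constructor
    · intro h
      exact (mem_filter.1 h).2
    · intro h
      refine mem_filter.2 ⟨?_, h⟩
      have := encl_box hf.2.2 hx hy h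
      rw [mem_product, mem_Ico, mem_Ico]
      exact this
  refine ⟨S, hS, ?_⟩
  unfold area
  rw [Nat.card_congr (Equiv.subtypeEquivRight fun c => (hS c).symm)]
  exact (Nat.card_eq_fintype_card).trans (Fintype.card_coe S)

end loop

/-- JOB PT-LOW -/
theorem t (hver : Pool.Agent.Q91.PT.S_ver) : Pool.Agent.Q91.PT.S_low := by
  intro m f hm hf
  obtain ⟨S, hS, hA⟩ := exists_S hm hf
  obtain ⟨dir, hdir⟩ : ∃ dir : ZMod m → Fin 4, ∀ k, f (k + 1) = f k + off (dir k) :=
    ⟨fun k => (exists_dir hf k).choose, fun k => (exists_dir hf k).choose_spec⟩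
  obtain ⟨h1, h2⟩ := le_outer hver hm hf hS hdir
  have h3 := outer_le (gr_conn hver hm hf hS h2 hdir)
  rw [hA]
  omega

end Pool.Agent.Q198.PT.Low
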